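import Pool.Agent.H22.VF.Flag

set_option autoImplicit false

namespace Pool.Agent.Results.MP_ec85c3_co.SmallDimension

/-- Euclidean `n`-space. -/
abbrev Eu (n : ℕ) := EuclideanSpace ℝ (Fin n)

/-- `L` is a lattice in Euclidean `n`-space: a discrete subgroup which spans the space. -/
def IsFullLattice {n : ℕ} (L : AddSubgroup (Eu n)) : Prop :=
  DiscreteTopology L ∧ Submodule.span ℝ (L : Set (Eu n)) = ⊤

/-- The intersection of the Voronoi cells of `0` and `v`. -/
def cellInter {E : Type} [NormedAddCommGroup E] (L : AddSubgroup E) (v : E) : Set E :=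
  {x | ∀ w ∈ L, ‖x‖ ≤ ‖x - w‖ ∧ ‖x - v‖ ≤ ‖x - w‖}

/-- The dimension of (the affine hull of) a set. -/
noncomputable def affineDim {E : Type} [NormedAddCommGroup E] [NormedSpace ℝ E] (S : Set E) : ℕ :=
  Module.finrank ℝ (affineSpan ℝ S).direction

/-- `v` is a facet vector of the lattice `L`: a non-zero vector of `L` such that the Voronoi cells
of `0` and of `v` meet in a set of dimension `n - 1`. -/
def IsFacetVector {n : ℕ} (L : AddSubgroup (Eu n)) (v : Eu n) : Prop :=
  v ∈ L ∧ v ≠ 0 ∧ affineDim (cellInter L v) = n - 1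

/-- In dimension `n ≤ 9` every lattice has a `ℤ`-basis of facet vectors. -/
theorem result (n : ℕ) (hn9 : n ≤ 9) (L : AddSubgroup (Eu n)) (hL : IsFullLattice L) :
    ∃ b : Module.Basis (Fin n) ℤ L, ∀ i, IsFacetVector L (b i) := by
  have hn : Module.finrank ℝ (Eu n) = n := finrank_euclideanSpace_fin
  have : DiscreteTopology L.toIntSubmodule := hL.1
  obtain ⟨f, hf, h1, h2⟩ := H22VF.small L.toIntSubmodule hL.2 n hn hn9
  have hli : LinearIndependent ℤ f := by
    have h3 : LinearIndependent ℤ (fun i => (f i : Eu n)) := h1.restrict_scalars (by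
      intro x y h
      simpa using h)
    exact LinearIndependent.of_comp L.toIntSubmodule.subtype h3
  have key : ∃ b : Module.Basis (Fin n) ℤ L.toIntSubmodule,
      ∀ i, H22VF.IsFacet L.toIntSubmodule (b i : Eu n) :=
    ⟨Module.Basis.mk hli h2.ge, fun i => by rw [Module.Basis.mk_apply]; exact hf i⟩
  obtain ⟨b, hb⟩ := key
  refine ⟨b, fun i => ⟨(hb i).1, (hb i).2.1, ?_⟩⟩
  have h3 := (hb i).2.2
  rw [hn] at h3
  exact h3

end Pool.Agent.Results.MP_ec85c3_co.SmallDimension
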