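import Pool.Agent.H22.VF.Final

set_option autoImplicit false

namespace Pool.Agent.Results.MP_ec85c3_co.TwoPrimes

/-- Euclidean `n`-space. -/
abbrev Eu (n : ℕ) := EuclideanSpace ℝ (Fin n)

/-- `L` is a lattice in Euclidean `n`-space: a discrete subgroup which spans the space. -/
def IsFullLattice {n : ℕ} (L : AddSubgroup (Eu n)) : Prop :=
  DiscreteTopology L ∧ Submodule.span ℝ (L : Set (Eu n)) = ⊤

/-- The intersection of the Voronoi cells of `0` and `v`. -/
def cellInter {E : Type} [NormedAddCommGroup E] (L : AddSubgroup E) (v : E) : Set E :=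
  {x | ∀ w ∈ L, ‖x‖ ≤ ‖x - w‖ ∧ ‖x - v‖ ≤ ‖x - w‖}

/-- The dimension of (the affine hull of) a set. -/
noncomputable def affineDim {E : Type} [NormedAddCommGroup E] [NormedSpace ℝ E] (S : Set E) : ℕ :=
  Module.finrank ℝ (affineSpan ℝ S).direction

/-- `v` is a facet vector of the lattice `L`: a non-zero vector of `L` such that the Voronoi cells
of `0` and of `v` meet in a set of dimension `n - 1`. -/
def IsFacetVector {n : ℕ} (L : AddSubgroup (Eu n)) (v : Eu n) : Prop :=
  v ∈ L ∧ v ≠ 0 ∧ affineDim (cellInter L v) = n - 1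

/-- The index in `A` of the subgroup generated by the elements `f i`. -/
noncomputable def indexOf {A : Type} [AddCommGroup A] {n : ℕ} (f : Fin n → A) : ℕ :=
  (AddSubgroup.closure (Set.range f)).index

/-- The elements `f i` generate `A` modulo `m A`. -/
def GeneratesMod {A : Type} [AddCommGroup A] {n : ℕ} (m : ℕ) (f : Fin n → A) : Prop :=
  ∀ x : A, ∃ (c : Fin n → ℤ) (y : A), x = ∑ i, c i • f i + m • y

theorem generatesMod_of_coprime {A : Type} [AddCommGroup A] {n : ℕ} (m : ℕ) (f : Fin n → A)
    (h : (indexOf f).Coprime m) : GeneratesMod m f := by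
  intro x
  have hk : indexOf f • x ∈ AddSubgroup.closure (Set.range f) := AddSubgroup.nsmul_index_mem _ _
  rw [← Submodule.span_int_eq_addSubgroupClosure] at hk
  obtain ⟨u, v, huv⟩ : ∃ u v : ℤ, u * (indexOf f : ℤ) + v * m = 1 := Nat.isCoprime_iff_coprime.2 h
  have hk2 : u • indexOf f • x ∈ Submodule.span ℤ (Set.range f) := Submodule.smul_mem _ u hk
  obtain ⟨c, hc⟩ := (Submodule.mem_span_range_iff_exists_fun ℤ).1 hk2
  refine ⟨c, v • x, ?_⟩
  have e1 : ∑ i, c i • f i = (u * (indexOf f : ℤ)) • x := by rw [hc, mul_smul, natCast_zsmul]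
  rw [e1, ← natCast_zsmul (v • x), ← mul_smul, ← add_smul, mul_comm (m : ℤ) v, huv, one_smul]

/-- For every full rank lattice `L` and every `m ≥ 1` with at most two distinct prime factors
there are `n` linearly independent facet vectors generating a sublattice of `L` whose index is
coprime to `m`, that is `n` facet vectors which form a basis of `L / m L`. -/
theorem result (n : ℕ) (L : AddSubgroup (Eu n)) (hL : IsFullLattice L)
    (m : ℕ) (hm0 : m ≠ 0) (hm : m.primeFactors.card ≤ 2) :
    ∃ f : Fin n → L, (∀ i, IsFacetVector L (f i)) ∧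
      LinearIndependent ℝ (fun i => (f i : Eu n)) ∧
      (indexOf f).Coprime m ∧ GeneratesMod m f := by
  have hn : Module.finrank ℝ (Eu n) = n := finrank_euclideanSpace_fin
  have : DiscreteTopology L.toIntSubmodule := hL.1
  obtain ⟨f, hf, h1, h2⟩ := H22VF.main (n := n) L.toIntSubmodule hn ⟨hL.2⟩ m hm0 hm
  rw [Submodule.span_int_eq_addSubgroupClosure] at h2
  refine ⟨f, fun i => ⟨(f i).2, (hf i).2.1, ?_⟩, h1, h2, generatesMod_of_coprime (A := L) m f h2⟩
  have h3 := (hf i).2.2
  rw [hn] at h3
  exact h3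

end Pool.Agent.Results.MP_ec85c3_co.TwoPrimes
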